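import Pool.Agent.helper11.OFP.Spec

/-!
# Project ofp (MP_90e158_lc), row CRI
-/

set_option autoImplicit false

open MeasureTheory

namespace Pool.Agent.OFP

open Pool.Agent.LOF MeasureTheory

/-- row CRI -/
theorem CRI (hEQU : EQU_stmt) (hFCL : FCL_stmt) (hEXH : EXH_stmt) (hRMS : RMS_stmt) : CRI_stmt := by
  intro X _ hdiag act B hact hfam
  refine ⟨Rel act B, hRMS X hdiag act B hact hfam, hEQU X act B hact hfam, ?_, ?_, ?_⟩
  · intro n x
    refine ((hFCL X act B hact hfam n x).image fun g => act g x).subset ?_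
    rintro y ⟨g, rfl, hg⟩
    exact ⟨g, hg, rfl⟩
  · rintro n x y ⟨g, hy, hg⟩
    exact ⟨g, hy, fun m hm => hg m ((Nat.le_succ n).trans hm)⟩
  · intro x hx y _
    constructor
    · rintro ⟨g, hy⟩
      obtain ⟨n, hn⟩ := hEXH X act B hact hfam x hx g
      exact ⟨n, g, hy, hn⟩
    · rintro ⟨n, g, hy, _⟩
      exact ⟨g, hy⟩

end Pool.Agent.OFP
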